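import Pool.Agent.H48.A4.Grp
import Pool.Agent.H48.KV.Res
import Pool.Agent.H48.T3.Fin

/-!
# Malle's conjecture for all transitive groups isomorphic to `A_4`, and for groups with a Klein four subgroup

`a4_nn`: `A_4` is not nilpotent. `a4_zeta`: a number field which contains a primitive 12th root of unity. `a4_all`: the result.
-/

set_option autoImplicit false

open H38.ML

namespace H48.A4

private theorem a4_center : ∀ g : alternatingGroup (Fin 4),
    (∀ h : alternatingGroup (Fin 4), g * h * g⁻¹ * h⁻¹ = 1) → g = 1 := by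
  decide

private theorem a4_ucs (n : ℕ) :
    Subgroup.upperCentralSeries (alternatingGroup (Fin 4)) n = ⊥ := by
  induction n with
  | zero => exact Subgroup.upperCentralSeries_zero _
  | succ n ih =>
    rw [eq_bot_iff]
    intro x hx
    rw [Subgroup.mem_upperCentralSeries_succ_iff] at hx
    rw [Subgroup.mem_bot]
    apply a4_center
    intro h
    have h1 := hx h
    rw [ih, Subgroup.mem_bot] at h1
    exact h1

theorem a4_nn : ¬ Group.IsNilpotent (alternatingGroup (Fin 4)) := by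
  rintro ⟨n, hn⟩
  rw [a4_ucs] at hn
  have h1 := Subgroup.card_top (G := alternatingGroup (Fin 4))
  rw [← hn, Subgroup.card_bot, alternatingGroup.card_of_card_eq_four (by simp)] at h1
  omega

/-- the Klein four subgroup of a group isomorphic to `A_4` -/
theorem a4_klein {G : Type} [Group G] (e : G ≃* alternatingGroup (Fin 4)) :
    ∃ (V : Subgroup G) (_ : V.Normal), Nat.card V = 4 ∧ (∀ x ∈ V, x ^ 2 = 1) ∧
      Group.IsNilpotent (G ⧸ V) ∧ ∀ g, e g ∈ alternatingGroup.kleinFour (Fin 4) → g ∈ V := by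
  have h4 : Nat.card (Fin 4) = 4 := by simp
  have hN : (alternatingGroup.kleinFour (Fin 4)).Normal := alternatingGroup.normal_kleinFour h4
  have hV4 := alternatingGroup.kleinFour_card_of_card_eq_four h4
  have hex := alternatingGroup.exponent_kleinFour_of_card_eq_four h4
  have h2 : ∀ x ∈ alternatingGroup.kleinFour (Fin 4), x ^ 2 = 1 := by
    intro x hx
    have h3 := Monoid.pow_exponent_eq_one (⟨x, hx⟩ : alternatingGroup.kleinFour (Fin 4))
    rw [hex] at h3
    exact congrArg Subtype.val h3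
  let V : Subgroup G := (alternatingGroup.kleinFour (Fin 4)).comap e.toMonoidHom
  have hV : V.Normal := hN.comap e.toMonoidHom
  have hVc : Nat.card V = 4 := by
    rw [← hV4]
    exact Nat.card_congr (e.toEquiv.subtypeEquiv fun g => Iff.rfl)
  refine ⟨V, hV, hVc, fun x hx => ?_, ?_, fun g hg => hg⟩
  · apply e.injective
    rw [map_pow, map_one]
    exact h2 _ hx
  · have h5 : Nat.card (G ⧸ V) = 3 := by
      have h6 := Subgroup.card_eq_card_quotient_mul_card_subgroup V
      rw [hVc, a4_card e] at h6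
      omega
    have hp : Fact (Nat.Prime 3) := ⟨Nat.prime_three⟩
    have h3 : Nat.card (G ⧸ V) = 3 ^ 1 := by rw [h5, pow_one]
    have hfin : Finite (G ⧸ V) := Nat.finite_of_card_ne_zero (by rw [h5]; norm_num)
    exact (IsPGroup.of_card h3).isNilpotent

theorem a4_zeta : ∃ K₀ : IntermediateField ℚ QBar, NumberField K₀ ∧
    ∀ K : IntermediateField ℚ QBar, K₀ ≤ K → ∃ ζ : K, IsPrimitiveRoot ζ 12 := by
  obtain ⟨z, hz⟩ := HasEnoughRootsOfUnity.exists_primitiveRoot QBar 12
  have hint : IsIntegral ℚ z := (Algebra.IsIntegral.isIntegral z)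
  have hfd : FiniteDimensional ℚ (IntermediateField.adjoin ℚ {z}) :=
    IntermediateField.adjoin.finiteDimensional hint
  refine ⟨IntermediateField.adjoin ℚ {z}, NumberField.of_module_finite ℚ _, fun K hK => ?_⟩
  have hzK : z ∈ K := hK (IntermediateField.mem_adjoin_simple_self ℚ z)
  exact ⟨⟨z, hzK⟩, IsPrimitiveRoot.of_map_of_injective (f := algebraMap K QBar) hz
    (algebraMap K QBar).injective⟩

theorem a4_all (n : ℕ) (hn : 2 ≤ n) (G : Subgroup (Equiv.Perm (Fin n)))
    (hG : MulAction.IsPretransitive G (Fin n))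
    (h : Nonempty (G ≃* alternatingGroup (Fin 4)) ∨
      (¬ Group.IsNilpotent G ∧ ∃ (V : Subgroup G) (_ : V.Normal), Nat.card V = 4 ∧
        (∀ x ∈ V, x ^ 2 = 1) ∧ Group.IsNilpotent (G ⧸ V) ∧
        ∀ g : G, g ≠ 1 → Spec.ind (g : Equiv.Perm (Fin n)) = Spec.indG G → g ∈ V)) :
    ∃ K₀ : IntermediateField ℚ QBar, NumberField K₀ ∧
      ∀ K : IntermediateField ℚ QBar, K₀ ≤ K → ∀ _ : NumberField K,
        (∀ B : ℝ, Spec.nK K QBar G B ≠ ⊤) ∧
        ∃ C : ℝ, 0 < C ∧ Filter.Tendsto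
          (fun B : ℝ => ((Spec.nK K QBar G B).toNat : ℝ) /
            (B ^ (1 / (Spec.indG G : ℝ)) * Real.log B ^ (Spec.betaAll K QBar G - 1)))
          Filter.atTop (nhds C) := by
  -- the case of a Klein four group
  have key : ∀ (hnn : ¬ Group.IsNilpotent G) (V : Subgroup G) (_ : V.Normal), Nat.card V = 4 →
      (∀ x ∈ V, x ^ 2 = 1) → Group.IsNilpotent (G ⧸ V) →
      (∀ g : G, g ≠ 1 → Spec.ind (g : Equiv.Perm (Fin n)) = Spec.indG G → g ∈ V) →
      ∃ K₀ : IntermediateField ℚ QBar, NumberField K₀ ∧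
        ∀ K : IntermediateField ℚ QBar, K₀ ≤ K → ∀ _ : NumberField K,
          (∀ B : ℝ, Spec.nK K QBar G B ≠ ⊤) ∧
          ∃ C : ℝ, 0 < C ∧ Filter.Tendsto
            (fun B : ℝ => ((Spec.nK K QBar G B).toNat : ℝ) /
              (B ^ (1 / (Spec.indG G : ℝ)) * Real.log B ^ (Spec.betaAll K QBar G - 1)))
            Filter.atTop (nhds C) := by
    intro hnn V hV h4 h2 hnil hI
    obtain ⟨K₀, hK₀, h⟩ := H48.KV.res n hn G hG hnn V hV h4 h2 hnil hI
    refine ⟨K₀, hK₀, fun K hK hKf => ?_⟩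
    obtain ⟨h1, h2, C, hC, h3⟩ := h K hK hKf
    refine ⟨h2, C, hC, h3.congr fun B => ?_⟩
    rw [h1, Nat.sub_self, pow_zero, mul_one]
  rcases h with ⟨⟨e⟩⟩ | ⟨hnn, V, hV, h4, h2, hnil, hI⟩
  swap
  · exact key hnn V hV h4 h2 hnil hI
  rcases a4_deg G hG e with h | h
  · subst h
    have hG4 := a4_four G e
    subst hG4
    obtain ⟨K₀, hK₀, hz⟩ := a4_zeta
    refine ⟨K₀, hK₀, fun K hK hKf => ?_⟩
    obtain ⟨ζ, hζ⟩ := hz K hK
    obtain ⟨h1, h2, h3, C, hC, h4⟩ := H48.T3.t3_main K ζ hζ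
    refine ⟨h3, C, hC, ?_⟩
    rw [h1, h2]
    exact h4
  · obtain ⟨V, hV, h4, h2, hnil, hv⟩ := a4_klein e
    refine key ?_ V hV h4 h2 hnil fun g hg hi => hv g (a4_least G hG e h g hg hi)
    intro hGn
    exact a4_nn (Group.nilpotent_of_mulEquiv e)

end H48.A4
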