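import Pool.Agent.H38.ML.RegInd
import Pool.Agent.H38.ML.Spec
import Mathlib.GroupTheory.SpecificGroups.Alternating.KleinFour

/-!
# Transitive groups isomorphic to `A_4`

`a4_deg`: the degree is 4, 6 or 12. `a4_four`: in degree 4 it is the alternating group. `a4_least`: in degree 6 and 12 the elements of least
index are in the Klein four subgroup.
-/

set_option autoImplicit false

open H38.ML

namespace H48.A4

theorem orb_sum {n : ℕ} (g : Equiv.Perm (Fin n)) :
    ∃ (m : MulAction.orbitRel.Quotient (Subgroup.zpowers g) (Fin n) → ℕ),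
      ∃ _ : Fintype (MulAction.orbitRel.Quotient (Subgroup.zpowers g) (Fin n)),
      ∑ ω, m ω = n ∧ ∀ ω, ∃ x : Fin n,
        m ω = Nat.card (Subgroup.zpowers g ⧸ MulAction.stabilizer (Subgroup.zpowers g) x) := by
  classical
  have e := MulAction.selfEquivSigmaOrbitsQuotientStabilizer (Subgroup.zpowers g) (Fin n)
  have h1 := Nat.card_congr e
  rw [Nat.card_eq_fintype_card, Fintype.card_fin] at h1
  have : Fintype (MulAction.orbitRel.Quotient (Subgroup.zpowers g) (Fin n)) := Fintype.ofFinite _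
  rw [Nat.card_sigma] at h1
  exact ⟨_, this, h1.symm, fun ω => ⟨_, rfl⟩⟩

theorem orb_two {n : ℕ} (g : Equiv.Perm (Fin n)) (h : g ^ 2 = 1) :
    n ≤ 2 * orbs (Subgroup.zpowers g) := by
  obtain ⟨m, hf, h1, h2⟩ := orb_sum g
  have h3 : orderOf g ≤ 2 := orderOf_le_of_pow_eq_one (by norm_num) h
  have h4 : ∀ ω, m ω ≤ 2 := by
    intro ω
    obtain ⟨x, hx⟩ := h2 ω
    rw [hx]
    refine le_trans (Nat.le_of_dvd ?_ (Subgroup.card_quotient_dvd_card _)) ?_
    · rw [Nat.card_zpowers]
      exact orderOf_pos g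
    · rw [Nat.card_zpowers]
      exact h3
  calc n = ∑ ω, m ω := h1.symm
    _ ≤ ∑ _ω : MulAction.orbitRel.Quotient (Subgroup.zpowers g) (Fin n), 2 :=
        Finset.sum_le_sum fun ω _ => h4 ω
    _ = 2 * orbs (Subgroup.zpowers g) := by
        rw [Finset.sum_const, smul_eq_mul, Finset.card_univ, ← Nat.card_eq_fintype_card, mul_comm]
        rfl

theorem orb_three {n : ℕ} (g : Equiv.Perm (Fin n)) (h : g ^ 3 = 1) (hf : ∀ x, g x ≠ x) :
    n = 3 * orbs (Subgroup.zpowers g) ∨ n = 0 := by
  rcases Nat.eq_zero_or_pos n with h0 | h0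
  · exact Or.inr h0
  left
  obtain ⟨m, hft, h1, h2⟩ := orb_sum g
  have hp : Fact (Nat.Prime 3) := ⟨Nat.prime_three⟩
  have hg1 : g ≠ 1 := fun hg => hf ⟨0, h0⟩ (by rw [hg]; rfl)
  have h3 : orderOf g = 3 := orderOf_eq_prime h hg1
  have h4 : ∀ ω, m ω = 3 := by
    intro ω
    obtain ⟨x, hx⟩ := h2 ω
    rw [hx]
    have h5 : MulAction.stabilizer (Subgroup.zpowers g) x = ⊥ := by
      have h6 : Nat.card (Subgroup.zpowers g) = 3 := by rw [Nat.card_zpowers, h3]
      have h7 := Subgroup.card_subgroup_dvd_card (MulAction.stabilizer (Subgroup.zpowers g) x)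
      rw [h6, Nat.dvd_prime Nat.prime_three] at h7
      rcases h7 with h7 | h7
      · exact Subgroup.card_eq_one.1 h7
      · exfalso
        have h8 : MulAction.stabilizer (Subgroup.zpowers g) x = ⊤ := by
          rw [← Subgroup.card_eq_iff_eq_top, h7, h6]
        have h9 : (⟨g, Subgroup.mem_zpowers g⟩ : Subgroup.zpowers g) ∈
            MulAction.stabilizer (Subgroup.zpowers g) x := by
          rw [h8]
          trivial
        exact hf x (MulAction.mem_stabilizer_iff.1 h9)
    rw [h5]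
    have h6 : Nat.card (Subgroup.zpowers g ⧸ (⊥ : Subgroup (Subgroup.zpowers g))) = orderOf g :=
      (Nat.card_congr (QuotientGroup.quotientBot (G := Subgroup.zpowers g)).toEquiv).trans
        (Nat.card_zpowers g)
    rw [h6, h3]
  calc n = ∑ ω, m ω := h1.symm
    _ = ∑ _ω : MulAction.orbitRel.Quotient (Subgroup.zpowers g) (Fin n), 3 :=
        Finset.sum_congr rfl fun ω _ => h4 ω
    _ = 3 * orbs (Subgroup.zpowers g) := by
        rw [Finset.sum_const, smul_eq_mul, Finset.card_univ, ← Nat.card_eq_fintype_card, mul_comm]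
        rfl

theorem a4_card {G : Type} [Group G] (e : G ≃* alternatingGroup (Fin 4)) : Nat.card G = 12 := by
  rw [Nat.card_congr e.toEquiv, alternatingGroup.card_of_card_eq_four (by simp)]

theorem a4_deg {n : ℕ} (G : Subgroup (Equiv.Perm (Fin n)))
    (hG : MulAction.IsPretransitive G (Fin n)) (e : G ≃* alternatingGroup (Fin 4)) :
    n = 4 ∨ n = 6 ∨ n = 12 := by
  have h1 : Nat.card G = 12 := a4_card e
  have h2 : Nat.card G ∣ n.factorial := by
    have h3 := Subgroup.card_subgroup_dvd_card G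
    rwa [Nat.card_eq_fintype_card (α := Equiv.Perm (Fin n)), Fintype.card_perm, Fintype.card_fin]
      at h3
  rw [h1] at h2
  rcases Nat.eq_zero_or_pos n with h0 | h0
  · subst h0
    norm_num at h2
  have h4 : n ∣ 12 := by
    rw [← h1]
    have h5 := (MulAction.stabilizer G (⟨0, h0⟩ : Fin n)).index_dvd_card
    rwa [MulAction.index_stabilizer_of_transitive G, Nat.card_eq_fintype_card, Fintype.card_fin]
      at h5
  have h6 : n ≤ 12 := Nat.le_of_dvd (by norm_num) h4
  interval_cases n <;> revert h2 h4 <;> decide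

theorem a4_four (G : Subgroup (Equiv.Perm (Fin 4))) (e : G ≃* alternatingGroup (Fin 4)) :
    G = alternatingGroup (Fin 4) := by
  have h1 : Nat.card G = 12 := a4_card e
  have h2 := G.card_mul_index
  rw [h1, Nat.card_eq_fintype_card (α := Equiv.Perm (Fin 4)), Fintype.card_perm, Fintype.card_fin]
    at h2
  have h3 : G.index = 2 := by
    have h4 : (4 : ℕ).factorial = 24 := rfl
    omega
  exact Equiv.Perm.eq_alternatingGroup_of_index_eq_two h3

private theorem a4_ord : ∀ g : alternatingGroup (Fin 4), g ^ 2 = 1 ∨ g ^ 3 = 1 := by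
  decide

private theorem a4_inv : ∃ g : alternatingGroup (Fin 4), g ≠ 1 ∧ g ^ 2 = 1 := by
  decide

private theorem a4_v : ∀ g : alternatingGroup (Fin 4), g ^ 2 = 1 →
    g ∈ alternatingGroup.kleinFour (Fin 4) := by
  intro g hg
  have h4 : Nat.card (Fin 4) = 4 := by simp
  have h1 : orderOf (g : Equiv.Perm (Fin 4)) ∣ 2 ^ 1 := by
    rw [Subgroup.orderOf_coe, pow_one]
    exact orderOf_dvd_of_pow_eq_one hg
  rcases alternatingGroup.mem_kleinFour_of_order_two_pow h4 g.2 h1 with h | h
  · have h2 : (g : Equiv.Perm (Fin 4)) = 1 := Equiv.Perm.cycleType_eq_zero.1 h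
    have h3 : g = 1 := Subtype.ext h2
    rw [h3]
    exact Subgroup.one_mem _
  · exact Subgroup.subset_closure h

theorem a4_least {n : ℕ} (G : Subgroup (Equiv.Perm (Fin n)))
    (hG : MulAction.IsPretransitive G (Fin n)) (e : G ≃* alternatingGroup (Fin 4))
    (hn : n = 6 ∨ n = 12) (g : G) (hg : g ≠ 1) (hi : ind (g : Equiv.Perm (Fin n)) = indG G) :
    e g ∈ alternatingGroup.kleinFour (Fin 4) := by
  rcases a4_ord (e g) with h | h
  · exact a4_v _ h
  exfalso
  have hg3 : g ^ 3 = 1 := by
    apply e.injective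
    rw [map_pow, h, map_one]
  have hn0 : 0 < n := by rcases hn with rfl | rfl <;> norm_num
  have hgp : (g : Equiv.Perm (Fin n)) ^ 3 = 1 := by
    rw [← Subgroup.coe_pow, hg3]
    rfl
  -- no fixed points
  have hfix : ∀ x, (g : Equiv.Perm (Fin n)) x ≠ x := by
    intro x hx
    have h1 := Subgroup.card_mul_index (MulAction.stabilizer G x)
    rw [MulAction.index_stabilizer_of_transitive G x, a4_card e,
      Nat.card_eq_fintype_card (α := Fin n), Fintype.card_fin] at h1
    have h2 : g ∈ MulAction.stabilizer G x := MulAction.mem_stabilizer_iff.2 hx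
    have h3 : orderOf g = 3 := by
      have hp : Fact (Nat.Prime 3) := ⟨Nat.prime_three⟩
      exact orderOf_eq_prime hg3 hg
    have h4 : 3 ∣ Nat.card (MulAction.stabilizer G x) := by
      rw [← h3]
      exact Subgroup.orderOf_dvd_natCard _ h2
    obtain ⟨m, hm⟩ := h4
    rw [hm] at h1
    rcases hn with rfl | rfl <;> omega
  rcases orb_three _ hgp hfix with h1 | h1
  swap
  · omega
  obtain ⟨t, ht1, ht2⟩ := a4_inv
  have ht : (e.symm t) ^ 2 = 1 := by rw [← map_pow, ht2, map_one]
  have htp : ((e.symm t : G) : Equiv.Perm (Fin n)) ^ 2 = 1 := by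
    rw [← Subgroup.coe_pow, ht]
    rfl
  have h2 := orb_two _ htp
  have h3 : indG G ≤ ind ((e.symm t : G) : Equiv.Perm (Fin n)) :=
    Nat.sInf_le ⟨_, (e.symm t).2, fun h => ht1 (by
      have h5 : e.symm t = 1 := Subtype.ext h
      rw [← e.apply_symm_apply t, h5, map_one]), rfl⟩
  rw [← hi] at h3
  unfold ind at h3
  omega

end H48.A4
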